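import Pool.Agent.Lib.MP_e6fef2_lc.Chain

/-!
# Module OKG: stages which are ok form a good chain
-/

set_option autoImplicit false

universe u v

open Cardinal Filter

namespace Pool.Agent.Lib.MP_e6fef2_lc.H36

open Pool.Agent.Lib.MP_100a6c_lc
open Pool.Agent.Lib.MP_c5d73d_lc.F (pr)

theorem prj_id {A : Type u} [CompleteBooleanAlgebra A] (c : A) :
    prj (fun a : A => a) c = c :=
  le_antisymm (sInf_le (le_refl c)) (le_sInf fun _ h => h)

theorem isCE_id {A : Type u} [CompleteBooleanAlgebra A] : IsCE (fun a : A => a) :=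
  ⟨fun _ _ h => h, fun _ => rfl, fun _ => sSup_eq_iSup⟩

theorem pe_id {A : Type u} [CompleteBooleanAlgebra A] : PE (fun a : A => a) := by
  refine Eventually.of_forall fun N c _ => ?_
  rw [prj_id, prj_id]

section

variable {L : Type u} [LinearOrder L] {A : L → Type u} [∀ i, CompleteBooleanAlgebra (A i)]
  {f : ∀ i j, A i → A j}

theorem fid (hf : IsCh A f) (i : L) : f i i = fun a => a := funext (hf.id i)

theorem th_le (hA2 : Alg2Statement.{u}) (hf : IsCh A f) {i : ℕ → L}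
    (hi : Monotone i) {q : ∀ n, A (i n)} (hq : IsTh f i q) (m k : ℕ) :
    prj (f (i m) (i (m + k))) (q (m + k)) = q m := by
  induction k with
  | zero =>
    show prj (f (i m) (i m)) (q m) = q m
    rw [fid hf, prj_id]
  | succ k ih =>
    have h1 : f (i m) (i (m + (k + 1))) =
        fun a => f (i (m + k)) (i (m + (k + 1))) (f (i m) (i (m + k)) a) := by
      funext a
      rw [hf.comp _ _ _ (hi (Nat.le_add_right _ _)) (hi (Nat.add_le_add_left (Nat.le_succ _) _))]
    rw [h1, (hA2 _ _ _ _ _ (hf.ce _ _ (hi (Nat.le_add_right _ _)))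
      (hf.ce _ _ (hi (Nat.add_le_add_left (Nat.le_succ _) _)))).2.1]
    have h2 : prj (f (i (m + k)) (i (m + (k + 1)))) (q (m + (k + 1))) = q (m + k) := hq (m + k)
    rw [h2, ih]

theorem th_prj (hA2 : Alg2Statement.{u}) (hf : IsCh A f) {i : ℕ → L}
    (hi : Monotone i) {q : ∀ n, A (i n)} (hq : IsTh f i q) {m n : ℕ} (h : m ≤ n) :
    prj (f (i m) (i n)) (q n) = q m := by
  obtain ⟨k, rfl⟩ := Nat.exists_eq_add_of_le h
  exact th_le hA2 hf hi hq m k

theorem eq_prj (hf : IsCh A f) (a b : L) (hab : a = b) (x : A a) (y : A b)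
    (h : prj (f a b) y = x) : f a b x = y := by
  subst hab
  rw [fid hf, prj_id] at h
  rw [fid hf, h]

theorem prj_eq (hf : IsCh A f) (a b j : L) (hbj : b = j) (y : A b) :
    prj (f a j) (f b j y) = prj (f a b) y := by
  subst hbj
  rw [hf.id]

/-- The thread property at `j`, from the thread property for sequences below `j`. -/
theorem tpat_of (hA : AlgStatement.{u}) (hA2 : Alg2Statement.{u}) (hf : IsCh A f) (j : L)
    (h : ∀ i : ℕ → L, Monotone i → (∀ n, i n < j) → ∀ q : ∀ n, A (i n), IsTh f i q →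
      prj (f (i 0) j) (⨅ n, f (i n) j (q n)) = q 0) : TPat A f j := by
  intro i hi hij q hq
  by_cases hc : ∀ n, i n < j
  · exact h i hi hc q hq
  · push Not at hc
    obtain ⟨n, hn⟩ := hc
    have hn' : i n = j := le_antisymm (hij n) hn
    have h1 : ∀ m, f (i n) j (q n) ≤ f (i m) j (q m) := by
      intro m
      rcases le_total m n with hmn | hmn
      · rw [← hf.comp _ _ _ (hi hmn) (hij n)]
        have hce := hf.ce _ _ (hij n)
        have hmono := (hA _ _ _ hce).2.2.2.2.1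
        rw [hmono]
        have hce' := hf.ce _ _ (hi hmn)
        have h2 := (hA _ _ _ hce').2.2.2.2.2.2.2.2.2.1 (q n)
        rw [th_prj hA2 hf hi hq hmn] at h2
        exact h2
      · have him : i m = j := le_antisymm (hij m) (hn'.symm ▸ hi hmn)
        have h2 := eq_prj hf (i n) (i m) (hn'.trans him.symm) (q n) (q m)
          (th_prj hA2 hf hi hq hmn)
        rw [← h2, hf.comp _ _ _ (hi hmn) (hij m)]
    have h2 : ⨅ m, f (i m) j (q m) = f (i n) j (q n) := le_antisymm (iInf_le _ n) (le_iInf h1)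
    rw [h2, prj_eq hf _ _ _ hn', th_prj hA2 hf hi hq (Nat.zero_le n)]

end

theorem okg (hA : AlgStatement.{u}) (hA2 : Alg2Statement.{u}) : OkgStatement.{u} := by
  intro κ I _ _ bk S _ X L _ φ hφ hdc hok
  -- the top at stage `j`
  have hg := fun j => (hok j).good
  have hid : ∀ (j : L) (a : (X (φ j)).A), (X (φ j)).mp (φ j) ⟨(X (φ j)).A, a⟩ = a :=
    fun j => (hok j).id
  have hfid : ∀ j, (fm φ (fun l => X (φ l)) j j) = fun a => a := fun j => funext (hid j)
  have hce : ∀ i j, i ≤ j → IsCE (fm φ (fun l => X (φ l)) i j) := by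
    intro i j hij
    rcases hij.lt_or_eq with h | rfl
    · exact (hg j).top.ce ⟨φ i, hφ h⟩
    · rw [hfid]; exact isCE_id
  have hcomp : ∀ i j k, i ≤ j → j ≤ k → ∀ a, fm φ (fun l => X (φ l)) j k
      (fm φ (fun l => X (φ l)) i j a) = fm φ (fun l => X (φ l)) i k a := by
    intro i j k hij hjk a
    rcases hij.lt_or_eq with h | rfl
    · rcases hjk.lt_or_eq with h' | rfl
      · exact (hg k).top.comp ⟨φ i, hφ (h.trans h')⟩ ⟨φ j, hφ h'⟩ (hφ h).le a
      · rw [hfid]
    · rw [hfid]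
  have hch : IsCh (fun l => (X (φ l)).A) (fm φ fun l => X (φ l)) := ⟨hce, hid, hcomp⟩
  refine ⟨hch, fun i => (hg i).ιce, ?_, ?_, fun i => (hg i).ιpe, ?_, ?_, fun i => (hg i).sig, ?_,
    fun i => (hg i).Mcard, fun i => (hg i).Mdm, fun i => (hg i).card⟩
  · intro i j hij x
    rcases hij.lt_or_eq with h | rfl
    · exact (hg j).ιcomp ⟨φ i, hφ h⟩ x
    · rw [hfid]
  · intro i j hij
    rcases hij.lt_or_eq with h | rfl
    · exact (hg j).pe ⟨φ i, hφ h⟩
    · rw [hfid]; exact pe_id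
  · intro j
    refine tpat_of hA hA2 hch j fun i hi hij q hq => ?_
    exact (hg j).tp (fun n => ⟨φ (i n), hφ (hij n)⟩) (fun m n h => hφ.monotone (hi h)) q hq
  · intro j hj
    have hne : Nonempty (Set.Iio (φ j)) := by
      have h1 := hj.1
      rw [not_isMin_iff] at h1
      obtain ⟨i, hi⟩ := h1
      exact ⟨⟨φ i, hφ hi⟩⟩
    have hnm : NoMaxOrder (Set.Iio (φ j)) := by
      refine ⟨fun x => ?_⟩
      obtain ⟨l, hl⟩ := hdc j x.1 (le_of_lt x.2)
      have hlj : l < j := hφ.lt_iff_lt.1 (hl ▸ x.2)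
      have h1 := hj.2 l
      rw [not_covBy_iff hlj] at h1
      obtain ⟨l', h2, h3⟩ := h1
      exact ⟨⟨φ l', hφ h3⟩, (hl ▸ hφ h2 : x.1 < φ l')⟩
    intro c hc
    obtain ⟨d, hdc', hd, s, hs, hsne, hds⟩ := (hg j).dp hne hnm c hc
    have hpre : ∀ x : Set.Iio (φ j), ∃ l, l < j ∧ φ l = x.1 := by
      intro x
      obtain ⟨l, hl⟩ := hdc j x.1 (le_of_lt x.2)
      exact ⟨l, hφ.lt_iff_lt.1 (hl ▸ x.2), hl⟩
    refine ⟨d, hdc', hd, φ ⁻¹' (Subtype.val '' s), ?_, ?_, ?_, ?_⟩
    · exact (hs.image _).preimage hφ.injective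
    · obtain ⟨x, hx⟩ := hsne
      obtain ⟨l, _, hl⟩ := hpre x
      exact ⟨l, x, hx, hl.symm⟩
    · rintro l ⟨x, _, hx⟩
      exact hφ.lt_iff_lt.1 (hx ▸ x.2)
    · refine hds.trans (le_antisymm ?_ ?_)
      · refine le_iInf₂ fun l hl => ?_
        obtain ⟨⟨x, hxj⟩, hx, hxl⟩ := hl
        simp only at hxl
        subst hxl
        exact iInf₂_le (⟨φ l, hxj⟩ : Set.Iio (φ j)) hx
      · refine le_iInf₂ fun x hx => ?_
        obtain ⟨l, hlj, hl⟩ := hpre x
        obtain ⟨x, hxj⟩ := x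
        simp only at hl
        subst hl
        exact iInf₂_le l (⟨⟨φ l, hxj⟩, hx, rfl⟩ : l ∈ φ ⁻¹' (Subtype.val '' s))
  · intro i j hij m hm
    rcases hij.lt_or_eq with h | rfl
    · exact (hg j).Mmap ⟨φ i, hφ h⟩ m hm
    · rw [hfid]; exact hm

end Pool.Agent.Lib.MP_e6fef2_lc.H36
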