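import Pool.Agent.Lib.MP_e6fef2_lc.Chain

/-!
# Module STEP: the step of the recursion
-/

set_option autoImplicit false

universe u v

open Cardinal Filter

namespace Pool.Agent.Lib.MP_e6fef2_lc.H36

open Pool.Agent.Lib.MP_100a6c_lc
open Pool.Agent.Lib.MP_c5d73d_lc.F (pr)

section

variable {I S : Type u} [LinearOrder I] [Preorder S] (β : I) (Z : Set.Iio β → St I S)
  {C : Type u} [CompleteBooleanAlgebra C] (e : ∀ i, (Z i).A → C) (ιC : H1.RO S → C) (MC : Set C)

open Classical in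
/-- The state given by an algebra on top of the previous ones. -/
noncomputable def mk : St I S where
  A := C
  ι := ιC
  M := MC
  mp i x :=
    if h : i < β then
      (if hx : x.1 = (Z ⟨i, h⟩).A then e ⟨i, h⟩ (cast hx x.2) else ⊥)
    else (if hx : x.1 = C then cast hx x.2 else ⊥)

theorem mk_lt (i : Set.Iio β) (a : (Z i).A) :
    (mk β Z e ιC MC).mp i.1 ⟨(Z i).A, a⟩ = e i a := by
  have h : i.1 < β := i.2
  exact (dif_pos h).trans ((dif_pos (rfl : (Z i).A = (Z i).A)).trans rfl)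

theorem mk_self (a : C) : (mk β Z e ιC MC).mp β ⟨C, a⟩ = a := by
  exact (dif_neg (lt_irrefl β)).trans ((dif_pos (rfl : C = C)).trans rfl)

theorem mk_okS (κ : Cardinal.{u}) (bk : I → I × I)
    (hg : GoodTop κ (fun i => (Z i).A) (fm Subtype.val Z) (fun i => (Z i).ι) (fun i => (Z i).M)
      e ιC MC)
    (hs : ∀ i : Set.Iio β, i.1 ⋖ β → ∀ Q : BPre (Z i).A W.{u},
      (∃ j : Set.Iio β, j ≤ i ∧ (bk i.1).1 = j.1 ∧
        ∀ x y, Q.le x y = fm Subtype.val Z j i (enu I (Z j).A (bk i.1).2 x y)) →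
      PE (twE Q) → ∃ G : W.{u} → C, GenF (fun a : (Z i).A => e i a) Q G) :
    OkS κ bk β Z (mk β Z e ιC MC) := by
  have h1 : (fun (i : Set.Iio β) (a : (Z i).A) => (mk β Z e ιC MC).mp i.1 ⟨(Z i).A, a⟩) = e := by
    funext i a
    exact mk_lt β Z e ιC MC i a
  refine ⟨?_, mk_self β Z e ιC MC, ?_⟩
  · rw [h1]; exact hg
  · intro i hi Q hQ hpe
    obtain ⟨G, hG⟩ := hs i hi Q hQ hpe
    refine ⟨G, ?_⟩
    have h2 : (fun a : (Z i).A => (mk β Z e ιC MC).mp i.1 ⟨(Z i).A, a⟩) = fun a => e i a := by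
      funext a
      exact mk_lt β Z e ιC MC i a
    rw [h2]; exact hG

end

theorem bpre_ext {A X : Type u} [CompleteBooleanAlgebra A] {Q Q' : BPre A X}
    (h : ∀ x y, Q.le x y = Q'.le x y) : Q = Q' := by
  cases Q; cases Q'
  congr 1
  funext x y
  exact h x y

theorem step (hO : OkgStatement.{u}) (hTL : ToplStatement.{u}) (hT0 : Top0Statement.{u})
    (hTT : ToptStatement.{u}) (hTS : TopsStatement.{u}) (hTW : Tw1Statement.{u}) :
    StepStatement.{u} := by
  classical
  intro κ I _ _ hI bk S _ hSG hKC hS β X hX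
  have hZ : (fun i : Set.Iio β => X i.1) = fun i : Set.Iio β => X i.1 := rfl
  set Z : Set.Iio β → St I S := fun i => X i.1 with hZdef
  suffices h : ∃ Y, OkS κ bk β Z Y by
    obtain ⟨Y, hY⟩ := h
    refine ⟨Y, ?_⟩
    have h1 : (fun i : Set.Iio β => Function.update X β Y i.1) = Z := by
      funext i
      exact Function.update_of_ne (ne_of_lt i.2) _ _
    have h2 : Function.update X β Y β = Y := Function.update_self _ _ _
    show OkS κ bk β (fun i : Set.Iio β => Function.update X β Y i.1) (Function.update X β Y β)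
    rw [h1, h2]
    exact hY
  have hgood : GoodCh κ (fun l => (Z l).A) (fm Subtype.val Z) (fun l => (Z l).ι)
      fun l => (Z l).M :=
    hO κ I bk S X (Set.Iio β) Subtype.val (fun _ _ h => h)
      (fun l i hi => ⟨⟨i, lt_of_le_of_lt hi l.2⟩, rfl⟩) (fun l => hX l.1 l.2)
  by_cases hne : Nonempty (Set.Iio β)
  · by_cases hm : ∃ m : Set.Iio β, ∀ i, i ≤ m
    · obtain ⟨m, hm⟩ := hm
      have hcov : ∀ i : Set.Iio β, i.1 ⋖ β → i = m := by
        intro i hi
        by_contra hne
        exact hi.2 (lt_of_le_of_ne (hm i) hne : i < m) m.2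
      by_cases hQ : ∃ Q : BPre (Z m).A W.{u}, (∃ j : Set.Iio β, j ≤ m ∧ (bk m.1).1 = j.1 ∧
        ∀ x y, Q.le x y = fm Subtype.val Z j m (enu I (Z j).A (bk m.1).2 x y)) ∧ PE (twE Q)
      · obtain ⟨Q, ⟨j, hjm, hbk, hle⟩, hpe⟩ := hQ
        obtain ⟨MC, hMC⟩ := hTS κ I hI S hKC hS (Set.Iio β) (fun l => (Z l).A)
          (fm Subtype.val Z) (fun l => (Z l).ι) (fun l => (Z l).M) hgood m hm Q hpe
        refine ⟨mk β Z (fun i a => twE Q (fm Subtype.val Z i m a)) (fun x => twE Q ((Z m).ι x)) MC,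
          mk_okS β Z _ _ MC κ bk hMC ?_⟩
        intro i hi Q' hQ' _
        have him := hcov i hi
        subst him
        obtain ⟨j', _, hbk', hle'⟩ := hQ'
        have hjj : j' = j := Subtype.ext (hbk'.symm.trans hbk)
        subst hjj
        have hQQ : Q' = Q := bpre_ext fun x y => by rw [hle', hle]
        subst hQQ
        have : Nonempty W.{u} := by
          rw [← Cardinal.mk_ne_zero_iff, Cardinal.mk_toType, Cardinal.card_ord]
          exact (Cardinal.aleph_pos _).ne'
        refine ⟨twG Q', ?_⟩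
        have h3 : (fun a : (Z i).A => twE Q' (fm Subtype.val Z i i a)) = twE Q' := by
          funext a
          rw [hgood.ch.id]
        rw [h3]
        exact (hTW (Z i).A W.{u} Q').2.2.2.2.2
      · have hgt := hTT κ S (Set.Iio β) (fun l => (Z l).A) (fm Subtype.val Z) (fun l => (Z l).ι)
          (fun l => (Z l).M) hgood m hm
        refine ⟨mk β Z (fun i => fm Subtype.val Z i m) (Z m).ι (Z m).M,
          mk_okS β Z _ _ _ κ bk hgt ?_⟩
        intro i hi Q' hQ' hpe'
        have him := hcov i hi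
        subst him
        exact absurd ⟨Q', hQ', hpe'⟩ hQ
    · have hnm : NoMaxOrder (Set.Iio β) := by
        refine ⟨fun a => ?_⟩
        by_contra hc
        push Not at hc
        exact hm ⟨a, hc⟩
      have hcard : #(Set.Iio β) < κ := hI.seg β
      obtain ⟨C, _, e, ιC, MC, hgt⟩ := hTL κ I hI S hSG hKC hS (Set.Iio β) hcard
        (fun l => (Z l).A) (fm Subtype.val Z) (fun l => (Z l).ι) (fun l => (Z l).M) hgood
      refine ⟨mk β Z e ιC MC, mk_okS β Z e ιC MC κ bk hgt ?_⟩
      intro i hi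
      obtain ⟨j, hj⟩ := hnm.exists_gt i
      exact absurd j.2 (hi.2 (hj : i.1 < j.1))
  · have hemp : IsEmpty (Set.Iio β) := not_nonempty_iff.1 hne
    have hgt := hT0 κ I hI S hKC hS (Set.Iio β) (fun l => (Z l).A) (fm Subtype.val Z)
      (fun l => (Z l).ι) (fun l => (Z l).M)
    exact ⟨mk β Z (fun i => isEmptyElim i) (fun x => x) {⊤, ⊥},
      mk_okS β Z _ _ _ κ bk hgt fun i => hemp.elim i⟩

end Pool.Agent.Lib.MP_e6fef2_lc.H36
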