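import Pool.Agent.Lib.MP_e6fef2_lc.Chain

/-!
# Module REC: dependent choice along a well-order
-/

set_option autoImplicit false

universe u v

namespace Pool.Agent.Lib.MP_e6fef2_lc.H36

open Classical in
theorem recc : RecStatement.{u, v} := by
  intro I _ _ St _ Ok hloc hstep
  let g : I → (I → St) → St := fun β X =>
    if h : ∃ Y, Ok β (Function.update X β Y) then h.choose else default
  have hg : ∀ β X, (∀ γ < β, Ok γ X) → Ok β (Function.update X β (g β X)) := by
    intro β X hX
    have h := hstep β X hX
    simp only [g, dif_pos h]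
    exact h.choose_spec
  let tr : (β : I) → ((γ : I) → γ < β → St) → I → St := fun β ih γ =>
    if h : γ < β then ih γ h else default
  let X : I → St := WellFounded.fix (C := fun _ => St) (wellFounded_lt (α := I))
    fun β ih => g β (tr β ih)
  have hX : ∀ β, X β = g β (tr β fun γ _ => X γ) := by
    intro β
    show WellFounded.fix _ _ _ = _
    rw [WellFounded.fix_eq]
  refine ⟨X, fun β => ?_⟩
  induction β using WellFoundedLT.induction with
  | _ β ih =>
    have h1 : ∀ γ < β, (tr β fun γ _ => X γ) γ = X γ := fun γ hγ => dif_pos hγ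
    have h2 : ∀ γ < β, Ok γ (tr β fun γ _ => X γ) := fun γ hγ =>
      hloc γ X _ (fun δ hδ => (h1 δ (hδ.trans_lt hγ)).symm) (ih γ hγ)
    have h3 := hg β _ h2
    rw [← hX] at h3
    refine hloc β _ X (fun γ hγ => ?_) h3
    rcases hγ.lt_or_eq with h | rfl
    · rw [Function.update_of_ne h.ne, h1 γ h]
    · rw [Function.update_self]

end Pool.Agent.Lib.MP_e6fef2_lc.H36
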